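import Pool.Agent.X103.MaxP

/-!
# MP_462b8b_an, Q1: the Navier-type critical biharmonic Sobolev constant of a cone is `S**`

For every `n ≥ 5` and every nonempty open subset `Σ` of the unit sphere (in particular for every
domain of class `C²`) the Navier-type constant of the cone over `Σ` equals the Sobolev constant of
the whole space.
-/

set_option autoImplicit false

open MeasureTheory Set Filter Topology InnerProductSpace Metric
open scoped Laplacian ENNReal

namespace Pool.Agent.Results.MP_462b8b_an.NavierConstantOnCones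

open Pool.Agent.X103.Kern Pool.Agent.X103.ConvLap Pool.Agent.X103.MaxP

variable {n : ℕ}

/-- The critical exponent `2** = 2n / (n - 4)`. -/
noncomputable def pcrit (n : ℕ) : ℝ := 2 * n / (n - 4)

/-- The cone over a subset of the unit sphere. -/
def cone (S : Set (sphere (0 : E n) 1)) : Set (E n) :=
  {x | ∃ r : ℝ, 0 < r ∧ ∃ σ ∈ S, x = r • (σ : E n)}

/-- `u ∈ C²(closure C)`: `u` is of class `C²` in `C` and continuous on the closure, and its
derivatives of order at most two have continuous extensions to the closure. -/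
structure C2Closure (C : Set (E n)) (u : E n → ℝ) : Prop where
  contDiffOn : ContDiffOn ℝ 2 u C
  continuousOn : ContinuousOn u (closure C)
  ext : ∀ k : ℕ, k ≤ 2 → ∃ G : E n → (E n [×k]→L[ℝ] ℝ), ContinuousOn G (closure C) ∧
    ∀ x ∈ C, G x = iteratedFDeriv ℝ k u x

/-- The Navier class: functions in `C²(closure C)` which vanish on the boundary, near the origin
and near infinity. -/
structure NavierClass (C : Set (E n)) (u : E n → ℝ) : Prop where
  smooth : C2Closure C u
  boundary : ∀ x ∈ frontier C, u x = 0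
  near_zero : ∃ r > 0, ∀ x ∈ closure C, ‖x‖ < r → u x = 0
  near_infty : ∃ R, ∀ x ∈ closure C, R < ‖x‖ → u x = 0

/-- The Navier-type constant of `C`. -/
noncomputable def navierConst (C : Set (E n)) : ℝ :=
  sInf {q | ∃ u : E n → ℝ, NavierClass C u ∧ (∃ x ∈ closure C, u x ≠ 0) ∧
    q = (∫ x in C, (Δ u) x ^ 2) / (∫ x in C, |u x| ^ pcrit n) ^ (2 / pcrit n)}

/-- `φ ∈ C_c^∞(ℝⁿ)`. -/
def IsTest (φ : E n → ℝ) : Prop := ContDiff ℝ (⊤ : ℕ∞) φ ∧ HasCompactSupport φ

/-- `w ∈ 𝒟²(ℝⁿ)` with distributional Laplacian `f`: `w` and `f` are the limits, in the critical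
Lebesgue space and in `L²`, of `φ_k` and `Δφ_k` with `φ_k ∈ C_c^∞(ℝⁿ)`. -/
structure MemD2 (w f : E n → ℝ) : Prop where
  memLp : MemLp w (ENNReal.ofReal (pcrit n)) volume
  memLp_lap : MemLp f 2 volume
  approx : ∃ φ : ℕ → E n → ℝ, (∀ k, IsTest (φ k)) ∧
    Tendsto (fun k => eLpNorm (fun x => φ k x - w x) (ENNReal.ofReal (pcrit n)) volume) atTop
      (𝓝 0) ∧
    Tendsto (fun k => eLpNorm (fun x => (Δ (φ k)) x - f x) 2 volume) atTop (𝓝 0)

/-- The constant `S**` of the whole space. -/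
noncomputable def sobolevConst (n : ℕ) : ℝ :=
  sInf {q | ∃ w f : E n → ℝ, MemD2 w f ∧ ¬ w =ᵐ[volume] 0 ∧
    q = (∫ x, f x ^ 2) / (∫ x, |w x| ^ pcrit n) ^ (2 / pcrit n)}

/-! ### Elementary facts -/

lemma pcrit_pos (hn : 5 ≤ n) : 2 < pcrit n := by
  have : (5 : ℝ) ≤ n := by exact_mod_cast hn
  unfold pcrit
  rw [lt_div_iff₀ (by linarith)]
  linarith

lemma ratio_nonneg {C : Set (E n)} (u f : E n → ℝ) (p : ℝ) :
    0 ≤ (∫ x in C, f x ^ 2) / (∫ x in C, |u x| ^ p) ^ (2 / p) :=
  div_nonneg (integral_nonneg fun _ => sq_nonneg _)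
    (Real.rpow_nonneg (integral_nonneg fun _ => Real.rpow_nonneg (abs_nonneg _) _) _)

lemma sobolev_bdd : BddBelow {q | ∃ w f : E n → ℝ, MemD2 w f ∧ ¬ w =ᵐ[volume] 0 ∧
    q = (∫ x, f x ^ 2) / (∫ x, |w x| ^ pcrit n) ^ (2 / pcrit n)} := by
  refine ⟨0, ?_⟩
  rintro q ⟨w, f, -, -, rfl⟩
  have := ratio_nonneg (C := univ) w f (pcrit n)
  simpa using this

lemma sobolev_nonneg : 0 ≤ sobolevConst n := by
  apply Real.sInf_nonneg
  rintro q ⟨w, f, -, -, rfl⟩
  have := ratio_nonneg (C := univ) w f (pcrit n)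
  simpa using this

lemma navier_bdd (C : Set (E n)) : BddBelow {q | ∃ u : E n → ℝ, NavierClass C u ∧
    (∃ x ∈ closure C, u x ≠ 0) ∧
    q = (∫ x in C, (Δ u) x ^ 2) / (∫ x in C, |u x| ^ pcrit n) ^ (2 / pcrit n)} := by
  refine ⟨0, ?_⟩
  rintro q ⟨u, -, -, rfl⟩
  exact ratio_nonneg _ _ _

lemma navier_nonneg (C : Set (E n)) : 0 ≤ navierConst C := by
  apply Real.sInf_nonneg
  rintro q ⟨u, -, -, rfl⟩
  exact ratio_nonneg _ _ _

lemma IsTest.cont_lap {φ : E n → ℝ} (h : IsTest φ) : Continuous (Δ φ) := by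
  rw [laplacian_eq_iteratedFDeriv_orthonormalBasis _ (EuclideanSpace.basisFun (Fin n) ℝ)]
  refine continuous_finsetSum _ fun i _ => ?_
  have h1 : Continuous (iteratedFDeriv ℝ 2 φ) :=
    (contDiff_infty.1 h.1 2).continuous_iteratedFDeriv (le_refl _)
  exact (ContinuousMultilinearMap.apply ℝ (fun _ : Fin 2 => E n) ℝ _).continuous.comp h1

lemma IsTest.supp_lap {φ : E n → ℝ} (h : IsTest φ) : HasCompactSupport (Δ φ) := by
  have h1 : HasCompactSupport (iteratedFDeriv ℝ 2 φ) := h.2.iteratedFDeriv (𝕜 := ℝ) 2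
  refine h1.mono' ?_
  intro x hx
  by_contra h2
  apply hx
  rw [laplacian_eq_iteratedFDeriv_orthonormalBasis _ (EuclideanSpace.basisFun (Fin n) ℝ)]
  have h3 : iteratedFDeriv ℝ 2 φ x = 0 := image_eq_zero_of_notMem_tsupport h2
  simp [h3]

lemma IsTest.memLp {φ : E n → ℝ} (h : IsTest φ) (p : ℝ≥0∞) : MemLp φ p volume :=
  h.1.continuous.memLp_of_hasCompactSupport h.2

lemma IsTest.memLp_lap {φ : E n → ℝ} (h : IsTest φ) (p : ℝ≥0∞) : MemLp (Δ φ) p volume :=
  h.cont_lap.memLp_of_hasCompactSupport h.supp_lap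

lemma IsTest.memD2 {φ : E n → ℝ} (h : IsTest φ) : MemD2 φ (Δ φ) where
  memLp := h.memLp _
  memLp_lap := h.memLp_lap _
  approx := ⟨fun _ => φ, fun _ => h, by simp, by simp⟩

/-- The `L^p` norm. -/
noncomputable def lpn (p : ℝ) (w : E n → ℝ) : ℝ := (∫ x, |w x| ^ p) ^ (p⁻¹)

lemma lpn_nonneg (p : ℝ) (w : E n → ℝ) : 0 ≤ lpn p w :=
  Real.rpow_nonneg (integral_nonneg fun _ => Real.rpow_nonneg (abs_nonneg _) _) _

lemma lpn_sq {p : ℝ} (hp : 0 < p) (w : E n → ℝ) : lpn p w ^ 2 = (∫ x, |w x| ^ p) ^ (2 / p) := by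
  unfold lpn
  rw [← Real.rpow_natCast, ← Real.rpow_mul
    (integral_nonneg fun x => Real.rpow_nonneg (abs_nonneg _) _)]
  congr 1
  push_cast
  field_simp

lemma eLp_eq {p : ℝ} (hp : 0 < p) {w : E n → ℝ} (hw : MemLp w (ENNReal.ofReal p) volume) :
    eLpNorm w (ENNReal.ofReal p) volume = ENNReal.ofReal (lpn p w) := by
  rw [hw.eLpNorm_eq_integral_rpow_norm (by simpa using hp) ENNReal.ofReal_ne_top,
    ENNReal.toReal_ofReal hp.le]
  rfl

lemma lpn_two (w : E n → ℝ) : lpn 2 w ^ 2 = ∫ x, w x ^ 2 := by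
  rw [lpn_sq (by norm_num)]
  simp

lemma lpn_triangle {p : ℝ} (hp : 1 ≤ p) {w v : E n → ℝ} (hw : MemLp w (ENNReal.ofReal p) volume)
    (hv : MemLp v (ENNReal.ofReal p) volume) :
    lpn p w ≤ lpn p v + lpn p (fun x => v x - w x) := by
  have hp0 : 0 < p := by linarith
  have h1 : eLpNorm w (ENNReal.ofReal p) volume ≤
      eLpNorm v (ENNReal.ofReal p) volume + eLpNorm (fun x => v x - w x) (ENNReal.ofReal p) volume := by
    have e : w = fun x => v x - (v x - w x) := by funext x; ring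
    calc eLpNorm w (ENNReal.ofReal p) volume
        = eLpNorm (fun x => v x - (v x - w x)) (ENNReal.ofReal p) volume := by rw [← e]
      _ ≤ _ := eLpNorm_sub_le hv.1 (hv.sub hw).1 (by simpa using hp)
  have hvw : MemLp (fun x => v x - w x) (ENNReal.ofReal p) volume := hv.sub hw
  rw [eLp_eq hp0 hw, eLp_eq hp0 hv, eLp_eq hp0 hvw, ← ENNReal.ofReal_add (lpn_nonneg _ _)
    (lpn_nonneg _ _)] at h1
  exact (ENNReal.ofReal_le_ofReal_iff (add_nonneg (lpn_nonneg _ _) (lpn_nonneg _ _))).1 h1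

/-- The Sobolev inequality for test functions, with the constant `sobolevConst`. -/
lemma test_ineq (hn : 5 ≤ n) {φ : E n → ℝ} (h : IsTest φ) :
    sobolevConst n * (∫ x, |φ x| ^ pcrit n) ^ (2 / pcrit n) ≤ ∫ x, (Δ φ) x ^ 2 := by
  have hp := pcrit_pos hn
  have hI : 0 ≤ ∫ x, |φ x| ^ pcrit n := integral_nonneg fun x => Real.rpow_nonneg (abs_nonneg _) _
  rcases hI.eq_or_lt with h0 | h0
  · rw [← h0, Real.zero_rpow (by positivity), mul_zero]
    exact integral_nonneg fun x => sq_nonneg _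
  · have hne : ¬ φ =ᵐ[volume] 0 := by
      intro h1
      have h2 : ∫ x, |φ x| ^ pcrit n = ∫ x : E n, (0:ℝ) := by
        refine integral_congr_ae ?_
        filter_upwards [h1] with x hx
        rw [hx]; simp; rw [Real.zero_rpow (by linarith)]
      rw [h2] at h0; simp at h0
    have h1 := csInf_le sobolev_bdd ⟨φ, Δ φ, h.memD2, hne, rfl⟩
    have h2 : 0 < (∫ x, |φ x| ^ pcrit n) ^ (2 / pcrit n) := Real.rpow_pos_of_pos h0 _
    rwa [le_div_iff₀ h2] at h1

/-! ### Cones -/

lemma zero_notMem_cone (S : Set (sphere (0 : E n) 1)) : (0 : E n) ∉ cone S := by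
  rintro ⟨r, hr, σ, -, h⟩
  have h1 := congrArg norm h
  rw [norm_zero, norm_smul, Real.norm_of_nonneg hr.le, norm_eq_of_mem_sphere σ, mul_one] at h1
  exact hr.ne h1

lemma smul_mem_cone {S : Set (sphere (0 : E n) 1)} {x : E n} (hx : x ∈ cone S) {t : ℝ}
    (ht : 0 < t) : t • x ∈ cone S := by
  obtain ⟨r, hr, σ, hσ, rfl⟩ := hx
  exact ⟨t * r, mul_pos ht hr, σ, hσ, by rw [smul_smul]⟩

lemma cone_open {S : Set (sphere (0 : E n) 1)} (hS : IsOpen S) : IsOpen (cone S) := by
  obtain ⟨O, hO, rfl⟩ := isOpen_induced_iff.1 hS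
  have h : cone (Subtype.val ⁻¹' O : Set (sphere (0 : E n) 1)) =
      {x : E n | x ≠ 0} ∩ (fun x => ‖x‖⁻¹ • x) ⁻¹' O := by
    ext x
    constructor
    · rintro ⟨r, hr, σ, hσ, rfl⟩
      have h1 : ‖r • (σ : E n)‖ = r := by
        rw [norm_smul, Real.norm_of_nonneg hr.le, norm_eq_of_mem_sphere σ, mul_one]
      refine ⟨?_, ?_⟩
      · show r • (σ : E n) ≠ 0
        rw [← norm_pos_iff, h1]; exact hr
      · show ‖r • (σ : E n)‖⁻¹ • r • (σ : E n) ∈ O
        rw [h1, smul_smul, inv_mul_cancel₀ hr.ne', one_smul]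
        exact hσ
    · rintro ⟨hx, hxO⟩
      have hx0 : 0 < ‖x‖ := norm_pos_iff.2 hx
      refine ⟨‖x‖, hx0, ⟨‖x‖⁻¹ • x, ?_⟩, hxO, ?_⟩
      · rw [mem_sphere_zero_iff_norm, norm_smul, norm_inv, norm_norm, inv_mul_cancel₀ hx0.ne']
      · rw [smul_smul, mul_inv_cancel₀ hx0.ne', one_smul]
  rw [h]
  refine ContinuousOn.isOpen_inter_preimage ?_ isOpen_ne hO
  intro x hx
  exact ((continuous_norm.continuousAt.inv₀ (norm_ne_zero_iff.2 hx)).smul
    continuousAt_id).continuousWithinAt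

lemma exists_ball {S : Set (sphere (0 : E n) 1)} (hS : IsOpen S) (hne : S.Nonempty) (R : ℝ) :
    ∃ a : E n, closedBall a R ⊆ cone S := by
  obtain ⟨σ, hσ⟩ := hne
  have h1 : (σ : E n) ∈ cone S := ⟨1, one_pos, σ, hσ, (one_smul _ _).symm⟩
  obtain ⟨ρ, hρ, hball⟩ := Metric.isOpen_iff.1 (cone_open hS) _ h1
  set t : ℝ := (|R| + 1) / ρ with ht
  have ht0 : 0 < t := by positivity
  refine ⟨t • (σ : E n), fun z hz => ?_⟩
  have h2 : t⁻¹ • z ∈ ball (σ : E n) ρ := by
    rw [mem_ball, dist_eq_norm]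
    have h3 : t⁻¹ • z - (σ : E n) = t⁻¹ • (z - t • (σ : E n)) := by
      rw [smul_sub, smul_smul, inv_mul_cancel₀ ht0.ne', one_smul]
    rw [h3, norm_smul, norm_inv, Real.norm_of_nonneg ht0.le]
    rw [mem_closedBall, dist_eq_norm] at hz
    have h4 : ‖z - t • (σ : E n)‖ < |R| + 1 := by have := le_abs_self R; linarith
    calc t⁻¹ * ‖z - t • (σ : E n)‖ < t⁻¹ * (|R| + 1) := by gcongr
      _ = ρ := by rw [ht]; field_simp
  have h5 := smul_mem_cone (hball h2) ht0
  rwa [smul_smul, mul_inv_cancel₀ ht0.ne', one_smul] at h5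

/-! ### The upper bound -/

lemma IsTest.exists_zero {φ : E n → ℝ} (h : IsTest φ) :
    ∃ R, 0 < R ∧ (∀ x, R < ‖x‖ → φ x = 0) ∧ ∀ x, R < ‖x‖ → (Δ φ) x = 0 := by
  obtain ⟨R1, h1⟩ := h.2.isCompact.isBounded.subset_closedBall 0
  obtain ⟨R2, h2⟩ := h.supp_lap.isCompact.isBounded.subset_closedBall 0
  refine ⟨|R1| + |R2| + 1, by positivity, fun x hx => ?_, fun x hx => ?_⟩
  · apply image_eq_zero_of_notMem_tsupport
    intro h3
    have h4 := h1 h3
    rw [mem_closedBall_zero_iff] at h4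
    have := le_abs_self R1
    have := abs_nonneg R2
    linarith
  · apply image_eq_zero_of_notMem_tsupport
    intro h3
    have h4 := h2 h3
    rw [mem_closedBall_zero_iff] at h4
    have := le_abs_self R2
    have := abs_nonneg R1
    linarith

/-- A translate of a test function lies in the Navier class of the cone. -/
lemma translate {S : Set (sphere (0 : E n) 1)} (hS : IsOpen S) (hne : S.Nonempty)
    {φ : E n → ℝ} (h : IsTest φ) : ∃ ψ : E n → ℝ, NavierClass (cone S) ψ ∧
      (∀ x, φ x ≠ 0 → ∃ y ∈ closure (cone S), ψ y ≠ 0) ∧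
      ∫ x in cone S, (Δ ψ) x ^ 2 = ∫ x, (Δ φ) x ^ 2 ∧
      ∀ p : ℝ, 0 < p → ∫ x in cone S, |ψ x| ^ p = ∫ x, |φ x| ^ p := by
  obtain ⟨R, hR, hz, hz2⟩ := h.exists_zero
  obtain ⟨a, ha⟩ := exists_ball hS hne R
  have hCo := cone_open hS
  set ψ : E n → ℝ := fun x => φ (x - a) with hψ
  have hψs : ContDiff ℝ (⊤ : ℕ∞) ψ := h.1.comp (contDiff_id.sub contDiff_const)
  have hψ2 : ContDiff ℝ 2 ψ := by exact_mod_cast contDiff_infty.1 hψs 2
  have hnotin : ∀ x, x ∉ cone S → R < ‖x - a‖ := by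
    intro x hx
    by_contra hcon
    push Not at hcon
    exact hx (ha (by rw [mem_closedBall, dist_eq_norm]; exact hcon))
  refine ⟨ψ, ⟨⟨hψ2.contDiffOn, hψs.continuous.continuousOn, ?_⟩, ?_, ?_, ?_⟩, ?_, ?_, ?_⟩
  · intro k hk
    refine ⟨iteratedFDeriv ℝ k ψ, ?_, fun x _ => rfl⟩
    exact (hψ2.continuous_iteratedFDeriv (by exact_mod_cast hk)).continuousOn
  · intro x hx
    have h1 : x ∉ cone S := fun h2 => by
      rw [hCo.frontier_eq] at hx; exact hx.2 h2
    exact hz _ (hnotin x h1)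
  · have h0 := hnotin 0 (zero_notMem_cone S)
    rw [zero_sub, norm_neg] at h0
    refine ⟨‖a‖ - R, by linarith, fun x _ hx => hz _ ?_⟩
    have := norm_sub_norm_le a x
    rw [norm_sub_rev] at this
    linarith
  · refine ⟨‖a‖ + R, fun x _ hx => hz _ ?_⟩
    have := norm_sub_norm_le x a
    linarith
  · intro x hx
    refine ⟨x + a, subset_closure (ha ?_), by simpa [hψ] using hx⟩
    rw [mem_closedBall, dist_eq_norm, add_sub_cancel_right]
    by_contra hcon
    push Not at hcon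
    exact hx (hz x hcon)
  · have h1 : ∀ x, (Δ ψ) x = (Δ φ) (x - a) := fun x => lap_translate φ a x
    rw [setIntegral_eq_integral_of_forall_compl_eq_zero]
    · simp only [h1]
      exact integral_sub_right_eq_self (μ := volume) (fun x => (Δ φ) x ^ 2) a
    · intro x hx
      rw [h1, hz2 _ (hnotin x hx)]; norm_num
  · intro p hp
    rw [setIntegral_eq_integral_of_forall_compl_eq_zero]
    · exact integral_sub_right_eq_self (μ := volume) (fun x => |φ x| ^ p) a
    · intro x hx
      show |φ (x - a)| ^ p = 0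
      rw [hz _ (hnotin x hx), abs_zero, Real.zero_rpow hp.ne']

lemma pos_of_ne {p : ℝ} (hp : 0 < p) {w : E n → ℝ} (hw : MemLp w (ENNReal.ofReal p) volume)
    (hne : ¬ w =ᵐ[volume] 0) : 0 < ∫ x, |w x| ^ p := by
  have hint : Integrable (fun x => |w x| ^ p) volume := by
    have := hw.integrable_norm_rpow (by simpa using hp) ENNReal.ofReal_ne_top
    rwa [ENNReal.toReal_ofReal hp.le] at this
  refine lt_of_le_of_ne (integral_nonneg fun x => Real.rpow_nonneg (abs_nonneg _) _) fun h => hne ?_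
  have h1 := (integral_eq_zero_iff_of_nonneg (fun x => Real.rpow_nonneg (abs_nonneg _) _) hint).1
    h.symm
  filter_upwards [h1] with x hx
  have h2 : |w x| ^ p = 0 := hx
  rw [Real.rpow_eq_zero (abs_nonneg _) hp.ne'] at h2
  simpa using h2

lemma exists_test : ∃ φ : E n → ℝ, IsTest φ ∧ φ 0 ≠ 0 := by
  let b : ContDiffBump (0 : E n) := ⟨1, 2, by norm_num, by norm_num⟩
  refine ⟨b, ⟨b.contDiff, b.hasCompactSupport⟩, ?_⟩
  rw [b.one_of_mem_closedBall (by simpa using b.rIn_pos.le)]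
  norm_num

lemma ne_ae_zero {φ : E n → ℝ} (h : IsTest φ) {x : E n} (hx : φ x ≠ 0) : ¬ φ =ᵐ[volume] 0 := by
  intro h1
  have h2 : φ = 0 := Continuous.ae_eq_iff_eq volume h.1.continuous continuous_zero |>.1 h1
  exact hx (congrFun h2 x)

lemma navier_test (hn : 5 ≤ n) {S : Set (sphere (0 : E n) 1)} (hS : IsOpen S)
    (hne : S.Nonempty) {φ : E n → ℝ} (h : IsTest φ) :
    navierConst (cone S) * (∫ x, |φ x| ^ pcrit n) ^ (2 / pcrit n) ≤ ∫ x, (Δ φ) x ^ 2 := by
  have hp := pcrit_pos hn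
  by_cases h0 : ∃ x, φ x ≠ 0
  · obtain ⟨x, hx⟩ := h0
    obtain ⟨ψ, h1, h2, h3, h4⟩ := translate hS hne h
    have hpos : 0 < ∫ x, |φ x| ^ pcrit n := pos_of_ne (by linarith) (h.memLp _) (ne_ae_zero h hx)
    have h5 := csInf_le (navier_bdd (cone S)) ⟨ψ, h1, h2 x hx, rfl⟩
    rw [h3, h4 _ (by linarith)] at h5
    have h6 : 0 < (∫ x, |φ x| ^ pcrit n) ^ (2 / pcrit n) := Real.rpow_pos_of_pos hpos _
    rwa [le_div_iff₀ h6] at h5
  · push Not at h0
    simp only [h0, abs_zero]
    rw [Real.zero_rpow (by linarith)]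
    simp only [integral_zero]
    rw [Real.zero_rpow (by positivity), mul_zero]
    exact integral_nonneg fun x => sq_nonneg _

theorem upper (hn : 5 ≤ n) {S : Set (sphere (0 : E n) 1)} (hS : IsOpen S) (hne : S.Nonempty) :
    navierConst (cone S) ≤ sobolevConst n := by
  have hp := pcrit_pos hn
  have hp0 : 0 < pcrit n := by linarith
  apply le_csInf
  · obtain ⟨φ, hφ, hφ0⟩ := exists_test (n := n)
    exact ⟨_, φ, Δ φ, hφ.memD2, ne_ae_zero hφ hφ0, rfl⟩
  rintro q ⟨w, f, hwf, hw0, rfl⟩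
  set N := navierConst (cone S) with hN
  have hN0 : 0 ≤ N := navier_nonneg _
  obtain ⟨φ, hφ, hlim1, hlim2⟩ := hwf.approx
  have h2 : ENNReal.ofReal 2 = 2 := by simp
  have hf2 : MemLp f (ENNReal.ofReal 2) volume := by rw [h2]; exact hwf.memLp_lap
  -- the differences
  have d1 : Tendsto (fun k => lpn (pcrit n) fun x => φ k x - w x) atTop (𝓝 0) := by
    have e : ∀ k, eLpNorm (fun x => φ k x - w x) (ENNReal.ofReal (pcrit n)) volume =
        ENNReal.ofReal (lpn (pcrit n) fun x => φ k x - w x) := fun k =>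
      eLp_eq hp0 (((hφ k).memLp _).sub hwf.memLp)
    simp only [e] at hlim1
    have := (ENNReal.tendsto_toReal (by simp)).comp hlim1
    simpa [Function.comp_def, ENNReal.toReal_ofReal (lpn_nonneg _ _)] using this
  have d2 : Tendsto (fun k => lpn 2 fun x => f x - (Δ (φ k)) x) atTop (𝓝 0) := by
    have e : ∀ k, eLpNorm (fun x => (Δ (φ k)) x - f x) 2 volume =
        ENNReal.ofReal (lpn 2 fun x => f x - (Δ (φ k)) x) := by
      intro k
      have e1 : MemLp (fun x => f x - (Δ (φ k)) x) (ENNReal.ofReal 2) volume :=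
        hf2.sub ((hφ k).memLp_lap _)
      rw [← eLp_eq (by norm_num) e1, h2]
      exact eLpNorm_sub_comm _ _ _ _
    simp only [e] at hlim2
    have := (ENNReal.tendsto_toReal (by simp)).comp hlim2
    simpa [Function.comp_def, ENNReal.toReal_ofReal (lpn_nonneg _ _)] using this
  have key : ∀ k, √N * lpn (pcrit n) w ≤ (lpn 2 f + lpn 2 fun x => f x - (Δ (φ k)) x) +
      √N * lpn (pcrit n) fun x => φ k x - w x := by
    intro k
    have t1 := lpn_triangle (by linarith) hwf.memLp ((hφ k).memLp (ENNReal.ofReal (pcrit n)))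
    have t2 := lpn_triangle (by norm_num) ((hφ k).memLp_lap (ENNReal.ofReal 2)) hf2
    have t3 : √N * lpn (pcrit n) (φ k) ≤ lpn 2 (Δ (φ k)) := by
      apply le_of_sq_le_sq _ (lpn_nonneg _ _)
      rw [mul_pow, Real.sq_sqrt hN0, lpn_sq hp0, lpn_two]
      exact navier_test hn hS hne (hφ k)
    have t4 := Real.sqrt_nonneg N
    nlinarith
  have hlim : Tendsto (fun k => (lpn 2 f + lpn 2 fun x => f x - (Δ (φ k)) x) +
      √N * lpn (pcrit n) fun x => φ k x - w x) atTop (𝓝 ((lpn 2 f + 0) + √N * 0)) :=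
    (tendsto_const_nhds.add d2).add (d1.const_mul _)
  have hfin := ge_of_tendsto' hlim key
  rw [add_zero, mul_zero, add_zero] at hfin
  have hpos := pos_of_ne hp0 hwf.memLp hw0
  rw [le_div_iff₀ (Real.rpow_pos_of_pos hpos _), ← lpn_sq hp0, ← lpn_two, ← Real.sq_sqrt hN0,
    ← mul_pow]
  exact pow_le_pow_left₀ (mul_nonneg (Real.sqrt_nonneg _) (lpn_nonneg _ _)) hfin 2

/-! ### The lower bound -/

section lower

variable {C : Set (E n)} {u : E n → ℝ}

/-- Extension by zero. -/
noncomputable def ext0 (C : Set (E n)) (u : E n → ℝ) : E n → ℝ := C.indicator u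

lemma ext0_cont (hC : IsOpen C) (hu : ContinuousOn u (closure C))
    (h0 : ∀ x ∈ frontier C, u x = 0) : Continuous (ext0 C u) := by
  rw [continuous_iff_continuousAt]
  intro x
  by_cases hx : x ∈ C
  · have h1 : ext0 C u =ᶠ[𝓝 x] u := by
      filter_upwards [hC.mem_nhds hx] with y hy
      exact indicator_of_mem hy u
    have h2 : ContinuousAt u x := (hu.mono subset_closure).continuousAt (hC.mem_nhds hx)
    exact h2.congr h1.symm
  by_cases hxc : x ∈ closure C
  · have hxf : x ∈ frontier C := by rw [hC.frontier_eq]; exact ⟨hxc, hx⟩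
    have hx0 : ext0 C u x = 0 := indicator_of_notMem hx u
    rw [Metric.continuousAt_iff]
    intro ε hε
    obtain ⟨δ, hδ, h⟩ := Metric.continuousWithinAt_iff.1 (hu x hxc) ε hε
    refine ⟨δ, hδ, fun y hy => ?_⟩
    by_cases hyC : y ∈ C
    · have h1 := h (subset_closure hyC) hy
      rw [h0 x hxf] at h1
      rw [hx0]
      show dist (C.indicator u y) 0 < ε
      rwa [indicator_of_mem hyC]
    · have h1 : ext0 C u y = 0 := indicator_of_notMem hyC u
      rw [h1, hx0, dist_self]; exact hε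
  · have h1 : ext0 C u =ᶠ[𝓝 x] fun _ => 0 := by
      filter_upwards [isClosed_closure.isOpen_compl.mem_nhds hxc] with y hy
      exact indicator_of_notMem (fun h => hy (subset_closure h)) u
    exact continuousAt_const.congr h1.symm

/-- The Laplacian has a continuous extension to the closure. -/
lemma lap_ext (h : C2Closure C u) : ∃ g : E n → ℝ, ContinuousOn g (closure C) ∧
    ∀ x ∈ C, g x = (Δ u) x := by
  obtain ⟨G, hG, hGe⟩ := h.ext 2 le_rfl
  refine ⟨fun x => ∑ i, G x ![EuclideanSpace.basisFun (Fin n) ℝ i,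
    EuclideanSpace.basisFun (Fin n) ℝ i], ?_, ?_⟩
  · refine continuousOn_finsetSum _ fun i _ => ?_
    exact (ContinuousMultilinearMap.apply ℝ (fun _ : Fin 2 => E n) ℝ _).continuous.comp_continuousOn
      hG
  · intro x hx
    rw [laplacian_eq_iteratedFDeriv_orthonormalBasis _ (EuclideanSpace.basisFun (Fin n) ℝ)]
    simp only [hGe x hx]

lemma lap_zero_far (hC : IsOpen C) {R : ℝ} (hR : ∀ x ∈ closure C, R < ‖x‖ → u x = 0) {x : E n}
    (hx : x ∈ C) (hxR : R < ‖x‖) : (Δ u) x = 0 := by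
  have h1 : u =ᶠ[𝓝 x] fun _ => (0:ℝ) := by
    have e1 : ∀ᶠ y in 𝓝 x, R < ‖y‖ :=
      (isOpen_lt continuous_const continuous_norm).mem_nhds hxR
    filter_upwards [hC.mem_nhds hx, e1] with y h1 h2
    exact hR y (subset_closure h1) h2
  rw [(laplacian_congr_nhds h1).self_of_nhds]
  rw [laplacian_eq_iteratedFDeriv_orthonormalBasis _ (EuclideanSpace.basisFun (Fin n) ℝ)]
  simp

/-- Uniform continuity and boundedness of the Laplacian. -/
lemma lap_mod (hC : IsOpen C) (h : C2Closure C u) {R : ℝ}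
    (hR : ∀ x ∈ closure C, R < ‖x‖ → u x = 0) :
    (∃ M, ∀ x ∈ C, |(Δ u) x| ≤ M) ∧ ∀ η > 0, ∃ δ > 0, ∀ x ∈ C, ∀ y ∈ C, dist x y < δ →
      |(Δ u) x - (Δ u) y| ≤ η := by
  obtain ⟨g, hg, hge⟩ := lap_ext h
  set K : Set (E n) := closure C ∩ closedBall 0 (R + 1) with hK
  have hKc : IsCompact K := by
    rw [hK, inter_comm]
    exact (isCompact_closedBall _ _).inter_right isClosed_closure
  have hgK : ContinuousOn g K := hg.mono inter_subset_left
  constructor
  · obtain ⟨M, hM⟩ := hKc.exists_bound_of_continuousOn hgK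
    refine ⟨|M|, fun x hx => ?_⟩
    by_cases hxR : R < ‖x‖
    · rw [lap_zero_far hC hR hx hxR, abs_zero]; exact abs_nonneg _
    · push Not at hxR
      have h1 := hM x ⟨subset_closure hx, by simpa using (by linarith : ‖x‖ ≤ R + 1)⟩
      rw [hge x hx, Real.norm_eq_abs] at h1
      exact h1.trans (le_abs_self _)
  · intro η hη
    have huc := hKc.uniformContinuousOn_of_continuous hgK
    rw [Metric.uniformContinuousOn_iff] at huc
    obtain ⟨δ, hδ, hd⟩ := huc η hη
    refine ⟨min δ 1, lt_min hδ one_pos, fun x hx y hy hxy => ?_⟩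
    have hxy1 : dist x y < 1 := hxy.trans_le (min_le_right _ _)
    have hxyδ : dist x y < δ := hxy.trans_le (min_le_left _ _)
    rw [dist_eq_norm] at hxy1
    by_cases hfar : R + 1 < ‖x‖ ∨ R + 1 < ‖y‖
    · have hx' : R < ‖x‖ := by
        rcases hfar with h1 | h1
        · linarith
        · have := norm_sub_norm_le y x
          rw [norm_sub_rev] at this
          linarith
      have hy' : R < ‖y‖ := by
        rcases hfar with h1 | h1
        · have := norm_sub_norm_le x y
          linarith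
        · linarith
      rw [lap_zero_far hC hR hx hx', lap_zero_far hC hR hy hy']
      simp; exact hη.le
    · push Not at hfar
      have h1 := hd x ⟨subset_closure hx, by simpa using hfar.1⟩ y
        ⟨subset_closure hy, by simpa using hfar.2⟩ hxyδ
      rw [hge x hx, hge y hy, Real.dist_eq] at h1
      exact h1.le

/-- The main approximation. -/
lemma approx (hn : 5 ≤ n) (hC : IsOpen C) (hCne : Cᶜ.Nonempty) (h : C2Closure C u)
    (h0 : ∀ x ∈ frontier C, u x = 0) {R : ℝ} (hR : ∀ x ∈ closure C, R < ‖x‖ → u x = 0)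
    {η : ℝ} (hη : 0 < η) : ∃ (w : E n → ℝ) (δ : ℝ), 0 < δ ∧ δ ≤ η ∧ IsTest w ∧ (∀ x, 0 ≤ w x) ∧
      ∫ x, (Δ w) x ^ 2 ≤ (1 + η) * (∫ x in C, (Δ u) x ^ 2) + η ∧
      ∀ x, δ ≤ infDist x Cᶜ → |ext0 C u x| ≤ w x + η * (1 + 3 * (|R| + 1) ^ 2) := by
  obtain ⟨⟨M, hM⟩, hmod⟩ := lap_mod hC h hR
  obtain ⟨δ1, hδ1, hd1⟩ := hmod η hη
  have hUc := ext0_cont hC h.continuousOn h0
  have hU0 : ∀ x ∉ C, ext0 C u x = 0 := fun x hx => indicator_of_notMem hx u
  have hU1 : ∀ x ∈ C, ext0 C u x = u x := fun x hx => indicator_of_mem hx u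
  have hUR : ∀ x, R < ‖x‖ → ext0 C u x = 0 := by
    intro x hx
    by_cases hxC : x ∈ C
    · rw [hU1 x hxC]; exact hR x (subset_closure hxC) hx
    · exact hU0 x hxC
  have hUcs : HasCompactSupport (ext0 C u) := compact_of_zero hUR
  have hUuc : UniformContinuous (ext0 C u) := hUc.uniformContinuous_of_tendsto_cocompact
    (x := 0) (by
      have := hUcs.is_zero_at_infty
      exact this)
  obtain ⟨δ2, hδ2, hd2⟩ := Metric.uniformContinuous_iff.1 hUuc η hη
  set δ : ℝ := min (min (δ1 / 2) (δ2 / 2)) η with hδ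
  have hδ0 : 0 < δ := lt_min (lt_min (by positivity) (by positivity)) hη
  have hδ1' : δ < δ1 := by
    have : δ ≤ δ1 / 2 := (min_le_left _ _).trans (min_le_left _ _)
    linarith
  have hδ2' : δ < δ2 := by
    have : δ ≤ δ2 / 2 := (min_le_left _ _).trans (min_le_right _ _)
    linarith
  -- the density
  set hh : E n → ℝ := C.indicator fun x => |(Δ u) x| with hhh
  have hlapc : ContinuousOn (Δ u) C := by
    obtain ⟨g, hg, hge⟩ := lap_ext h
    exact (hg.mono subset_closure).congr fun x hx => (hge x hx).symm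
  have hhm : Measurable hh := by
    classical
    have h1 : Measurable (C.piecewise (fun x => |(Δ u) x|) 0) :=
      ContinuousOn.measurable_piecewise hlapc.abs continuousOn_const hC.measurableSet
    rwa [Set.piecewise_eq_indicator] at h1
  have hhnn : ∀ x, 0 ≤ hh x := fun x => indicator_nonneg (fun y _ => abs_nonneg _) x
  have hhM : ∀ x, hh x ≤ |M| := by
    intro x
    by_cases hx : x ∈ C
    · rw [hhh, indicator_of_mem hx]; exact (hM x hx).trans (le_abs_self _)
    · rw [hhh, indicator_of_notMem hx]; exact abs_nonneg _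
  have hhR : ∀ x, R < ‖x‖ → hh x = 0 := by
    intro x hx
    by_cases hxC : x ∈ C
    · rw [hhh, indicator_of_mem hxC, lap_zero_far hC hR hxC hx, abs_zero]
    · rw [hhh, indicator_of_notMem hxC]
  have hh2 : ∫ x, hh x ^ 2 = ∫ x in C, (Δ u) x ^ 2 := by
    rw [← integral_indicator hC.measurableSet]
    refine integral_congr_ae (Eventually.of_forall fun x => ?_)
    by_cases hx : x ∈ C
    · simp only [hhh, indicator_of_mem hx, sq_abs]
    · simp only [hhh, indicator_of_notMem hx]; norm_num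
  obtain ⟨w, hw, hwc, hw0, hw2, hwl⟩ := exists_potential (by omega) hhm hhnn hhM hhR hδ0 hη
  rw [hh2] at hw2
  refine ⟨w, δ, hδ0, min_le_right _ _, ⟨hw, hwc⟩, hw0, hw2, ?_⟩
  refine comparison hC hCne h.contDiffOn hU1 hU0 hUc (by omega) hδ0 hη ?_ ?_ hw hw0 ?_
  · intro x hx
    apply hUR
    have := le_abs_self R
    linarith
  · intro x y hxy
    have := hd2 (hxy.trans_lt hδ2')
    rw [Real.dist_eq] at this
    exact this.le
  · intro x hx hxd
    have h1 := hwl x (|(Δ u) x| - η) (by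
      intro y hy
      have hyC : x - y ∈ C := by
        by_contra hcon
        have h2 := infDist_le_dist_of_mem (x := x) (mem_compl hcon)
        rw [dist_eq_norm, sub_sub_cancel] at h2
        linarith
      rw [hhh, indicator_of_mem hyC]
      have h3 := hd1 x hx (x - y) hyC (by rw [dist_eq_norm, sub_sub_cancel]; linarith)
      have h4 := abs_sub_abs_le_abs_sub ((Δ u) x) ((Δ u) (x - y))
      linarith)
    linarith

theorem lower_ineq (hn : 5 ≤ n) (hC : IsOpen C) (hCne : Cᶜ.Nonempty) (hN : NavierClass C u)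
    (hne : ∃ x ∈ closure C, u x ≠ 0) :
    sobolevConst n ≤
      (∫ x in C, (Δ u) x ^ 2) / (∫ x in C, |u x| ^ pcrit n) ^ (2 / pcrit n) := by
  have hp := pcrit_pos hn
  set p := pcrit n with hpdef
  have hp0 : 0 < p := by linarith
  obtain ⟨R, hR⟩ := hN.near_infty
  set U := ext0 C u with hU
  have hUc : Continuous U := ext0_cont hC hN.smooth.continuousOn hN.boundary
  have hU0 : ∀ x ∉ C, U x = 0 := fun x hx => indicator_of_notMem hx u
  have hU1 : ∀ x ∈ C, U x = u x := fun x hx => indicator_of_mem hx u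
  have hUcs : HasCompactSupport U := compact_of_zero (R := R) fun x hx => by
    by_cases hxC : x ∈ C
    · rw [hU1 x hxC]; exact hR x (subset_closure hxC) hx
    · exact hU0 x hxC
  have hUmem : MemLp U (ENNReal.ofReal p) volume := hUc.memLp_of_hasCompactSupport hUcs
  have hI : ∫ x in C, |u x| ^ p = ∫ x, |U x| ^ p := by
    rw [← setIntegral_eq_integral_of_forall_compl_eq_zero (s := C) (f := fun x => |U x| ^ p)]
    · refine setIntegral_congr_fun hC.measurableSet fun x hx => ?_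
      simp only [hU1 x hx]
    · intro x hx
      simp only [hU0 x hx, abs_zero]; exact Real.zero_rpow hp0.ne'
  have hIpos : 0 < ∫ x, |U x| ^ p := by
    refine pos_of_ne hp0 hUmem fun h1 => ?_
    have h2 : U = 0 := Continuous.ae_eq_iff_eq volume hUc continuous_zero |>.1 h1
    obtain ⟨x, hx, hx0⟩ := hne
    have hxC : x ∈ C := by
      by_contra hcon
      exact hx0 (hN.boundary x (by rw [hC.frontier_eq]; exact ⟨hx, hcon⟩))
    have h3 := congrFun h2 x
    rw [hU1 x hxC] at h3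
    exact hx0 h3
  set T := ∫ x in C, (Δ u) x ^ 2 with hT
  have hT0 : 0 ≤ T := integral_nonneg fun x => sq_nonneg _
  rw [hI, le_div_iff₀ (Real.rpow_pos_of_pos hIpos _)]
  set S0 := sobolevConst n with hS0
  have hS0n : 0 ≤ S0 := sobolev_nonneg
  rcases hS0n.eq_or_lt with h0 | hSpos
  · rw [← h0, zero_mul]; exact hT0
  -- the sequence
  set η : ℕ → ℝ := fun k => 1 / ((k : ℝ) + 1) with hη
  have hηpos : ∀ k, 0 < η k := fun k => by rw [hη]; positivity
  have hηlim : Tendsto η atTop (𝓝 0) := tendsto_one_div_add_atTop_nhds_zero_nat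
  choose w δ hδ0 hδη hwt hw0 hw2 hwc using fun k =>
    approx hn hC hCne hN.smooth hN.boundary hR (hηpos k)
  set B : ℝ := 1 + 3 * (|R| + 1) ^ 2 with hB
  -- the bound of the norms
  have hbound : ∀ k, ∫ x, |w k x| ^ p ≤ (((1 + η k) * T + η k) / S0) ^ (p / 2) := by
    intro k
    have h1 := (test_ineq hn (hwt k)).trans (hw2 k)
    rw [mul_comm, ← le_div_iff₀ hSpos] at h1
    have hI0 : 0 ≤ ∫ x, |w k x| ^ p := integral_nonneg fun x => Real.rpow_nonneg (abs_nonneg _) _
    have h2 := Real.rpow_le_rpow (Real.rpow_nonneg hI0 _) h1 (by positivity : 0 ≤ p / 2)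
    rw [← Real.rpow_mul hI0] at h2
    have h3 : 2 / pcrit n * (p / 2) = 1 := by rw [← hpdef]; field_simp
    rwa [h3, Real.rpow_one] at h2
  have hBlim : Tendsto (fun k => (((1 + η k) * T + η k) / S0) ^ (p / 2)) atTop
      (𝓝 ((T / S0) ^ (p / 2))) := by
    have h1 : Tendsto (fun k => ((1 + η k) * T + η k) / S0) atTop (𝓝 (((1 + 0) * T + 0) / S0)) :=
      (((tendsto_const_nhds.add hηlim).mul_const T).add hηlim).div_const S0
    rw [add_zero, add_zero, one_mul] at h1
    exact ((Real.continuous_rpow_const (by positivity)).tendsto _).comp h1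
  -- Fatou
  have hpt : ∀ x, ENNReal.ofReal (|U x| ^ p) ≤
      liminf (fun k => ENNReal.ofReal (|w k x| ^ p)) atTop := by
    intro x
    by_cases hxC : x ∈ C
    · have hd : 0 < infDist x Cᶜ :=
        (hC.isClosed_compl.notMem_iff_infDist_pos hCne).1 (fun h => h hxC)
      have hev : ∀ᶠ k in atTop, η k < infDist x Cᶜ := hηlim.eventually (gt_mem_nhds hd)
      have ht : Tendsto (fun k => ENNReal.ofReal ((max (|U x| - η k * B) 0) ^ p)) atTop
          (𝓝 (ENNReal.ofReal (|U x| ^ p))) := by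
        have h1 : Tendsto (fun k => max (|U x| - η k * B) 0) atTop (𝓝 (max (|U x| - 0 * B) 0)) :=
          (tendsto_const_nhds.sub (hηlim.mul_const B)).max tendsto_const_nhds
        rw [zero_mul, sub_zero, max_eq_left (abs_nonneg _)] at h1
        exact (ENNReal.continuous_ofReal.tendsto _).comp
          (((Real.continuous_rpow_const hp0.le).tendsto _).comp h1)
      rw [← ht.liminf_eq]
      refine liminf_le_liminf ?_
      filter_upwards [hev] with k hk
      apply ENNReal.ofReal_le_ofReal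
      apply Real.rpow_le_rpow (le_max_right _ _) _ hp0.le
      have h2 := hwc k x ((hδη k).trans hk.le)
      have h3 := le_abs_self (w k x)
      exact max_le (by linarith) (abs_nonneg _)
    · rw [hU0 x hxC, abs_zero, Real.zero_rpow hp0.ne', ENNReal.ofReal_zero]
      exact bot_le
  have hwint : ∀ k, Integrable (fun x => |w k x| ^ p) volume := by
    intro k
    have := ((hwt k).memLp (ENNReal.ofReal p)).integrable_norm_rpow (by simpa using hp0)
      ENNReal.ofReal_ne_top
    rwa [ENNReal.toReal_ofReal hp0.le] at this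
  have hUint : Integrable (fun x => |U x| ^ p) volume := by
    have := hUmem.integrable_norm_rpow (by simpa using hp0) ENNReal.ofReal_ne_top
    rwa [ENNReal.toReal_ofReal hp0.le] at this
  have hfatou : ENNReal.ofReal (∫ x, |U x| ^ p) ≤ ENNReal.ofReal ((T / S0) ^ (p / 2)) := by
    rw [ofReal_integral_eq_lintegral_ofReal hUint
      (Eventually.of_forall fun x => Real.rpow_nonneg (abs_nonneg _) _)]
    calc ∫⁻ x, ENNReal.ofReal (|U x| ^ p)
        ≤ ∫⁻ x, liminf (fun k => ENNReal.ofReal (|w k x| ^ p)) atTop := lintegral_mono hpt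
      _ ≤ liminf (fun k => ∫⁻ x, ENNReal.ofReal (|w k x| ^ p)) atTop := by
          refine lintegral_liminf_le fun k => ?_
          exact ((hwt k).1.continuous.abs.rpow_const fun x => Or.inr hp0.le).measurable.ennreal_ofReal
      _ ≤ liminf (fun k => ENNReal.ofReal ((((1 + η k) * T + η k) / S0) ^ (p / 2))) atTop := by
          refine liminf_le_liminf (Eventually.of_forall fun k => ?_)
          rw [← ofReal_integral_eq_lintegral_ofReal (hwint k)
            (Eventually.of_forall fun x => Real.rpow_nonneg (abs_nonneg _) _)]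
          exact ENNReal.ofReal_le_ofReal (hbound k)
      _ = ENNReal.ofReal ((T / S0) ^ (p / 2)) :=
          (((ENNReal.continuous_ofReal.tendsto _).comp hBlim)).liminf_eq
  have hTS : 0 ≤ T / S0 := div_nonneg hT0 hSpos.le
  have hfin := (ENNReal.ofReal_le_ofReal_iff (Real.rpow_nonneg hTS _)).1 hfatou
  have h2 := Real.rpow_le_rpow hIpos.le hfin (by positivity : 0 ≤ 2 / p)
  rw [← Real.rpow_mul hTS] at h2
  have h3 : p / 2 * (2 / p) = 1 := by field_simp
  rw [h3, Real.rpow_one, le_div_iff₀ hSpos] at h2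
  linarith

end lower

/-- **The Navier-type critical biharmonic Sobolev constant of a cone equals `S**`.** -/
theorem result (n : ℕ) (hn : 5 ≤ n) (S : Set (sphere (0 : E n) 1)) (hS : IsOpen S)
    (hne : S.Nonempty) : navierConst (cone S) = sobolevConst n := by
  refine le_antisymm (upper hn hS hne) ?_
  apply le_csInf
  · obtain ⟨φ, hφ, hφ0⟩ := exists_test (n := n)
    obtain ⟨ψ, h1, h2, -, -⟩ := translate hS hne hφ
    exact ⟨_, ψ, h1, h2 0 hφ0, rfl⟩
  · rintro q ⟨u, hu, hu0, rfl⟩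
    exact lower_ineq hn (cone_open hS) ⟨0, zero_notMem_cone S⟩ hu hu0

end Pool.Agent.Results.MP_462b8b_an.NavierConstantOnCones
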